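import Mathlib
import Pool.Agent.H98.Q.Main

open MeasureTheory ProbabilityTheory Filter Topology
open scoped ENNReal BoundedContinuousFunction

namespace Pool.Agent.Results.MP_b460e8_pr.QuenchedCLT

/-- The space `{0,1}^(ℤ^d)` with its product sigma-algebra; `ω x = true` means that `x` is a point
of the configuration `ω`. -/
abbrev Cfg (d : ℕ) := (Fin d → ℤ) → Bool

/-- The shift `(θ_x ω)(y) = ω(x + y)`. -/
def shift {d : ℕ} (x : Fin d → ℤ) (ω : Cfg d) : Cfg d := fun y => ω (x + y)

/-- The unit vector of the direction `e`: `e_i` for `e = (i, true)`, `-e_i` for `e = (i, false)`. -/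
def dir {d : ℕ} (e : Fin d × Bool) : Fin d → ℤ := Pi.single e.1 (if e.2 then 1 else -1)

/-- `f_e(ω) = min {k > 0 : ω(k e) = 1}` (with value `0` if there is no such `k`, an event of
probability zero under the hypotheses of the theorem). -/
noncomputable def gap {d : ℕ} (e : Fin d × Bool) (ω : Cfg d) : ℕ :=
  sInf {k : ℕ | 0 < k ∧ ω ((k : ℤ) • dir e) = true}

/-- The coordinate nearest point of `v` in direction `e`. -/
noncomputable def nbr {d : ℕ} (ω : Cfg d) (v : Fin d → ℤ) (e : Fin d × Bool) : Fin d → ℤ :=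
  v + (gap e (shift v ω) : ℤ) • dir e

/-- Condition (A): `Q` is a probability measure, stationary and ergodic for each of the shifts
`θ_(e_1), ..., θ_(e_d)`, and the configuration is not almost surely empty. -/
structure CondA {d : ℕ} (Q : Measure (Cfg d)) : Prop where
  prob : IsProbabilityMeasure Q
  ergodic : ∀ i : Fin d, Ergodic (shift (Pi.single i (1 : ℤ))) Q
  nonempty : Q {ω : Cfg d | ∀ x, ω x = false} < 1

/-- `P = Q( · | Ω_0)` with `Ω_0 = {ω : ω(0) = 1}`. -/
noncomputable def condLaw {d : ℕ} (Q : Measure (Cfg d)) : Measure (Cfg d) :=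
  ProbabilityTheory.cond Q {ω : Cfg d | ω 0 = true}

/-- The law of `X_n` under the quenched law `P_ω`: `X_0 = 0`, and from `v` the walk moves to each
of its `2d` coordinate nearest points with probability `1/(2d)`. -/
noncomputable def law {d : ℕ} (ω : Cfg d) : ℕ → Measure (Fin d → ℤ)
  | 0 => Measure.dirac 0
  | n + 1 => ((2 * d : ℕ) : ℝ≥0∞)⁻¹ • ∑ e : Fin d × Bool, (law ω n).map (fun v => nbr ω v e)

/-- The law of `X_n / √n` under `P_ω`. -/
noncomputable def scaledLaw {d : ℕ} (ω : Cfg d) (n : ℕ) : Measure (EuclideanSpace ℝ (Fin d)) :=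
  (law ω n).map (fun x => (√(n : ℝ))⁻¹ • WithLp.toLp 2 (fun i => (x i : ℝ)))

/-- The walk satisfies a (quenched) central limit theorem: there is a deterministic covariance
matrix `D` such that for `P`-almost every `ω` the laws of `X_n / √n` under `P_ω` converge weakly
to the centred normal law `N(0, D)`. -/
def SatisfiesCLT {d : ℕ} (Q : Measure (Cfg d)) : Prop :=
  ∃ D : Matrix (Fin d) (Fin d) ℝ, D.PosSemidef ∧ ∀ᵐ ω ∂(condLaw Q),
    ∀ f : BoundedContinuousFunction (EuclideanSpace ℝ (Fin d)) ℝ,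
      Tendsto (fun n : ℕ => ∫ y, f y ∂(scaledLaw ω n)) atTop
        (𝓝 (∫ y, f y ∂(multivariateGaussian 0 D)))

theorem law_eq {d : ℕ} (ω : Cfg d) (n : ℕ) : law ω n = Pool.Agent.H98.Q.law ω n := by
  induction n with
  | zero => rfl
  | succ n ih => rw [law, Pool.Agent.H98.Q.law, ih]; rfl

theorem scale_meas {d : ℕ} (n : ℕ) : Measurable (fun x : Fin d → ℤ =>
    ((√(n : ℝ))⁻¹ • WithLp.toLp 2 (fun i => (x i : ℝ)) : EuclideanSpace ℝ (Fin d))) :=
  measurable_of_countable _

theorem scaledLaw_prob {d : ℕ} (hd : 0 < d) (ω : Cfg d) (n : ℕ) :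
    IsProbabilityMeasure (scaledLaw ω n) := by
  have := Pool.Agent.H98.Q.law_prob hd ω n
  rw [scaledLaw, law_eq]
  exact Measure.isProbabilityMeasure_map (scale_meas n).aemeasurable

/-- **Quenched central limit theorem for the random walk on a discrete point process.**
For every `d ≥ 2` and every `Q` satisfying (A) with `E_P[f_e^2] < ∞` for all `e`, the walk
satisfies a central limit theorem. -/
theorem result : ∀ d : ℕ, 2 ≤ d → ∀ Q : Measure (Cfg d), CondA Q →
    (∀ e : Fin d × Bool, ∫⁻ ω, (gap e ω : ℝ≥0∞) ^ 2 ∂(condLaw Q) < ∞) → SatisfiesCLT Q := by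
  intro d hd Q hQ h2
  have := hQ.prob
  obtain ⟨D, hD, h⟩ := Pool.Agent.H98.Q.char_main hd Q hQ.ergodic hQ.nonempty h2
  refine ⟨D, hD, ?_⟩
  filter_upwards [h] with ω hω
  have hp : ∀ n, IsProbabilityMeasure (scaledLaw ω n) := scaledLaw_prob (by omega) ω
  set μ : ℕ → ProbabilityMeasure (EuclideanSpace ℝ (Fin d)) := fun n => ⟨scaledLaw ω n, hp n⟩
    with hμ
  set μ₀ : ProbabilityMeasure (EuclideanSpace ℝ (Fin d)) :=
    ⟨multivariateGaussian 0 D, inferInstance⟩ with hμ₀
  have key : Tendsto μ atTop (𝓝 μ₀) := by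
    rw [ProbabilityMeasure.tendsto_iff_tendsto_charFun]
    intro t
    have h0 : charFun (μ₀ : Measure (EuclideanSpace ℝ (Fin d))) t =
        (Real.exp (-((t.ofLp ⬝ᵥ D.mulVec t.ofLp) / 2)) : ℂ) := by
      rw [hμ₀, ProbabilityMeasure.coe_mk, charFun_multivariateGaussian hD]
      simp
    have h1 : ∀ n, charFun (μ n : Measure (EuclideanSpace ℝ (Fin d))) t =
        ∫ x, Complex.exp (((√(n : ℝ))⁻¹ * ∑ i, t.ofLp i * (x i : ℝ) : ℝ) *
          Complex.I) ∂(Pool.Agent.H98.Q.law ω n) := by
      intro n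
      rw [hμ, ProbabilityMeasure.coe_mk, charFun_apply, scaledLaw, law_eq,
        integral_map (scale_meas n).aemeasurable (by fun_prop)]
      refine integral_congr_ae (Eventually.of_forall fun x => ?_)
      simp only
      congr 2
      rw [real_inner_smul_left, PiLp.inner_apply]
      push_cast
      simp
    rw [h0]
    simp only [h1]
    exact hω t.ofLp
  intro f
  exact (ProbabilityMeasure.tendsto_iff_forall_integral_tendsto.1 key) f

end Pool.Agent.Results.MP_b460e8_pr.QuenchedCLT
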